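import Mathlib

set_option autoImplicit false

/-!
# Sets without `k`-term progressions in `F_p^n`: digits in an interval

For all primes `p ≥ k ≥ 3` we show `λ_{k,p} ≥ p - ⌊p / ⌈k/2⌉⌋`.

Let `Q = ⌈k/2⌉ - 1`, so `2 Q + 1 ≤ k`. We take the vectors in `F_p^n` whose coordinates have
representatives in `[0, m)`, `m = p - ⌊p / (Q + 1)⌋`, and in which every digit occurs a prescribed
number of times. In a progression all terms have the same digit frequencies. Going down from the
largest digit one sees that a coordinate in which the middle term has the digit `a` does not move: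
by Dirichlet's theorem some multiple `q y_i`, `1 ≤ q ≤ Q`, of the difference is nonzero and at most
`⌊p / (Q + 1)⌋` in absolute value, so one of the terms with the indices `Q ± q` would have a larger
digit there; since the number of occurrences of the digit `a` is the same in all terms, it occurs in
the same coordinates in all terms.
-/

open Finset

namespace Pool.Agent.Results.MP_b30443_co.IntervalTypes

/-- `A ⊆ F_p^n` contains no nontrivial `k`-term progression `x, x+y, …, x+(k-1)y` with `y ≠ 0`. -/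
def APFree (k p n : ℕ) (A : Finset (Fin n → ZMod p)) : Prop :=
  ∀ x y : Fin n → ZMod p, (∀ i : ℕ, i < k → x + i • y ∈ A) → y = 0

/-- `r_k(F_p^n)`: the largest size of a subset of `F_p^n` without nontrivial `k`-term
progressions. -/
noncomputable def r (k p n : ℕ) : ℕ :=
  sSup {m : ℕ | ∃ A : Finset (Fin n → ZMod p), APFree k p n A ∧ A.card = m}

/-- `λ_{k,p} = sup_{n ≥ 1} r_k(F_p^n)^{1/n}`. -/
noncomputable def lam (k p : ℕ) : ℝ :=
  ⨆ n : ℕ, (r k p (n + 1) : ℝ) ^ (1 / ((n : ℝ) + 1))

/-! ### The growth rate -/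

section

variable {p : ℕ} [hpf : Fact p.Prime]

lemma card_le_r {k n : ℕ} {A : Finset (Fin n → ZMod p)} (hA : APFree k p n A) :
    A.card ≤ r k p n := by
  unfold r
  apply le_csSup
  · refine ⟨Fintype.card (Fin n → ZMod p), ?_⟩
    rintro m ⟨B, _, rfl⟩
    exact Finset.card_le_univ B
  · exact ⟨A, hA, rfl⟩

lemma r_le (k n : ℕ) : r k p n ≤ p ^ n := by
  unfold r
  apply csSup_le'
  rintro m ⟨B, _, rfl⟩
  calc B.card ≤ Fintype.card (Fin n → ZMod p) := Finset.card_le_univ B
    _ = p ^ n := by simp [ZMod.card]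

lemma le_lam (k n : ℕ) : (r k p (n + 1) : ℝ) ^ (1 / ((n : ℝ) + 1)) ≤ lam k p := by
  unfold lam
  refine le_ciSup (f := fun n : ℕ => (r k p (n + 1) : ℝ) ^ (1 / ((n : ℝ) + 1))) ?_ n
  refine ⟨(p : ℝ), ?_⟩
  rintro _ ⟨m, rfl⟩
  have h1 : (r k p (m + 1) : ℝ) ≤ (p : ℝ) ^ (m + 1) := by exact_mod_cast r_le k (m + 1)
  have h2 : (0 : ℝ) ≤ (r k p (m + 1) : ℝ) := by positivity
  calc (r k p (m + 1) : ℝ) ^ (1 / ((m : ℝ) + 1))
      ≤ ((p : ℝ) ^ (m + 1)) ^ (1 / ((m : ℝ) + 1)) :=
        Real.rpow_le_rpow h2 h1 (by positivity)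
    _ = (p : ℝ) := by
        have : ((m : ℝ) + 1) = ((m + 1 : ℕ) : ℝ) := by push_cast; ring
        rw [this, one_div, Real.pow_rpow_inv_natCast (by positivity) (by omega)]

lemma lam_nonneg (k : ℕ) : 0 ≤ lam k p :=
  le_trans (Real.rpow_nonneg (by positivity) _) (le_lam (p := p) k 0)

lemma r_le_lam_pow (k : ℕ) {n : ℕ} (hn : 1 ≤ n) : (r k p n : ℝ) ≤ lam k p ^ n := by
  obtain ⟨m, rfl⟩ : ∃ m, n = m + 1 := ⟨n - 1, by omega⟩
  have h1 := le_lam (p := p) k m
  have h2 : (0 : ℝ) ≤ (r k p (m + 1) : ℝ) := by positivity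
  have h3 : ((m : ℝ) + 1) = ((m + 1 : ℕ) : ℝ) := by push_cast; ring
  calc (r k p (m + 1) : ℝ) = ((r k p (m + 1) : ℝ) ^ (1 / ((m : ℝ) + 1))) ^ (m + 1) := by
        rw [h3, one_div, Real.rpow_inv_natCast_pow h2 (by omega)]
    _ ≤ lam k p ^ (m + 1) := pow_le_pow_left₀ (Real.rpow_nonneg h2 _) h1 _

/-- If `a^N ≤ (N + 1)^c b^N` for all `N ≥ 1` then `a ≤ b`. -/
lemma le_of_pow_le {a b : ℝ} {c : ℕ} (hb : 0 ≤ b)
    (h : ∀ N : ℕ, 1 ≤ N → a ^ N ≤ ((N : ℝ) + 1) ^ c * b ^ N) : a ≤ b := by
  by_contra hab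
  push Not at hab
  have ha0 : 0 < a := lt_of_le_of_lt hb hab
  have hq0 : 0 ≤ b / a := by positivity
  have hq1 : b / a < 1 := (div_lt_one ha0).2 hab
  have h1 := tendsto_pow_const_mul_const_pow_of_abs_lt_one c
    (show |b / a| < 1 by rwa [abs_of_nonneg hq0])
  have h3 := h1.const_mul ((2 : ℝ) ^ c)
  rw [mul_zero] at h3
  have h4 := (h3.eventually (gt_mem_nhds (show (0 : ℝ) < 1 by norm_num))).and
    (Filter.eventually_ge_atTop 1)
  obtain ⟨N, hN, hN1⟩ := h4.exists
  have h5 := h N hN1
  have h6 : (0 : ℝ) < a ^ N := by positivity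
  have h7 : 1 ≤ ((N : ℝ) + 1) ^ c * (b / a) ^ N := by
    rw [div_pow, mul_div_assoc', le_div_iff₀ h6, one_mul]
    exact h5
  have h8 : ((N : ℝ) + 1) ^ c ≤ 2 ^ c * (N : ℝ) ^ c := by
    rw [← mul_pow]
    have : (1 : ℝ) ≤ N := by exact_mod_cast hN1
    exact pow_le_pow_left₀ (by positivity) (by linarith) c
  have h9 : ((N : ℝ) + 1) ^ c * (b / a) ^ N ≤ 2 ^ c * ((N : ℝ) ^ c * (b / a) ^ N) := by
    rw [← mul_assoc]
    exact mul_le_mul_of_nonneg_right h8 (by positivity)
  linarith

/-- Dirichlet's theorem: a small nonzero multiple. -/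
lemma dirichlet {Q : ℕ} (hQ : 1 ≤ Q) (hQp : Q < p) {y : ZMod p} (hy : y ≠ 0) :
    ∃ q : ℕ, 1 ≤ q ∧ q ≤ Q ∧ ∃ δ : ℕ, 1 ≤ δ ∧ δ ≤ p / (Q + 1) ∧
      ((q : ZMod p) * y = δ ∨ (q : ZMod p) * y = -(δ : ZMod p)) := by
  have hp0 : (0 : ℝ) < p := by exact_mod_cast hpf.out.pos
  obtain ⟨q, hq0, hqQ, hq⟩ := Real.exists_nat_abs_mul_sub_round_le ((y.val : ℝ) / p) hQ
  set t : ℤ := round ((q : ℝ) * ((y.val : ℝ) / p)) with ht
  set e : ℤ := q * y.val - t * p with he
  have he1 : (q : ZMod p) * y = (e : ZMod p) := by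
    rw [he]
    push_cast
    rw [ZMod.natCast_zmod_val, ZMod.natCast_self, mul_zero, sub_zero]
  have he2 : |(e : ℝ)| ≤ p / (Q + 1) := by
    have h1 : (e : ℝ) = ((q : ℝ) * ((y.val : ℝ) / p) - t) * p := by
      rw [he]
      push_cast
      field_simp
    rw [h1, abs_mul, abs_of_pos hp0]
    calc |(q : ℝ) * ((y.val : ℝ) / p) - t| * p ≤ 1 / (Q + 1) * p :=
          mul_le_mul_of_nonneg_right hq hp0.le
      _ = p / (Q + 1) := by ring
  have he3 : e.natAbs ≤ p / (Q + 1) := by
    rw [Nat.le_div_iff_mul_le (by omega)]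
    have h1 : ((e.natAbs : ℕ) : ℝ) = |(e : ℝ)| := by
      rw [← Int.cast_abs, Int.abs_eq_natAbs]
      simp
    have h2 : ((e.natAbs * (Q + 1) : ℕ) : ℝ) ≤ p := by
      push_cast
      rw [← le_div_iff₀ (by positivity)]
      have h3 : ((e.natAbs : ℕ) : ℝ) ≤ p / (Q + 1) := by rw [h1]; exact he2
      exact_mod_cast h3
    exact_mod_cast h2
  have he4 : e ≠ 0 := by
    intro h0
    rw [h0, Int.cast_zero, mul_eq_zero] at he1
    rcases he1 with h1 | h1
    · rw [ZMod.natCast_eq_zero_iff] at h1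
      have := Nat.le_of_dvd hq0 h1
      omega
    · exact hy h1
  refine ⟨q, hq0, hqQ, e.natAbs, by omega, he3, ?_⟩
  rcases Int.natAbs_eq e with h1 | h1
  · left
    rw [he1]
    conv_lhs => rw [h1]
    exact Int.cast_natCast _
  · right
    rw [he1]
    conv_lhs => rw [h1]
    rw [Int.cast_neg, Int.cast_natCast]

/-- The main step: vectors with digits in `[0, m)` and equal digit frequencies. -/
lemma elimination {Q m k N : ℕ} (hQ : 1 ≤ Q) (hk : 2 * Q + 1 ≤ k) (hkp : k ≤ p)
    (hm : m + p / (Q + 1) ≤ p) (x y : Fin N → ZMod p)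
    (hI : ∀ j < k, ∀ i, (x i + j • y i).val < m)
    (hist : ∀ a : ZMod p, ∀ j < k, (univ.filter fun i => x i + j • y i = a).card =
      (univ.filter fun i => x i = a).card) : y = 0 := by
  classical
  have claim : ∀ d a : ℕ, m ≤ a + d → ∀ j < k, ∀ i, (x i + j • y i).val = a → y i = 0 := by
    intro d
    induction d with
    | zero =>
      intro a ha j hj i hi
      have := hI j hj i
      omega
    | succ d ih =>
      intro a ha j hj i hi
      by_cases hle : m ≤ a + d
      · exact ih a hle j hj i hi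
      -- the middle term
      have hmid : ∀ i, x i + Q • y i = (a : ZMod p) → y i = 0 := by
        intro i hi
        by_contra hy
        obtain ⟨q, hq1, hqQ, δ, hδ1, hδ2, hδ⟩ := dirichlet hQ (by omega) hy
        have hval : ∀ j, j < k → x i + j • y i = ((a + δ : ℕ) : ZMod p) → False := by
          intro j hj h1
          have h2 : (x i + j • y i).val = a + δ := by
            rw [h1, ZMod.val_natCast_of_lt (by omega)]
          exact hy (ih (a + δ) (by omega) j hj i h2)
        rcases hδ with h | h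
        · apply hval (Q + q) (by omega)
          rw [add_smul, ← add_assoc, hi, nsmul_eq_mul, h]
          push_cast
          rfl
        · apply hval (Q - q) (by omega)
          have h3 : x i + Q • y i = x i + (Q - q) • y i + q • y i := by
            rw [add_assoc, ← add_smul, Nat.sub_add_cancel hqQ]
          have h4 : x i + (Q - q) • y i = (x i + Q • y i) - q • y i := by
            rw [h3, add_sub_cancel_right]
          rw [h4, hi, nsmul_eq_mul, h]
          push_cast
          ring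
      have hsub : (univ.filter fun i => x i + Q • y i = (a : ZMod p)) ⊆
          univ.filter fun i => x i + j • y i = (a : ZMod p) := by
        intro i hi
        rw [mem_filter] at hi ⊢
        refine ⟨mem_univ _, ?_⟩
        have h0 := hmid i hi.2
        have h1 := hi.2
        rw [h0, smul_zero] at h1 ⊢
        exact h1
      have heq := eq_of_subset_of_card_le hsub
        (by rw [hist _ j hj, hist _ Q (by omega)])
      have hmem : i ∈ univ.filter fun i => x i + j • y i = (a : ZMod p) := by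
        rw [mem_filter]
        refine ⟨mem_univ _, ?_⟩
        rw [← hi, ZMod.natCast_zmod_val]
      rw [← heq, mem_filter] at hmem
      exact hmid i hmem.2
  funext i
  exact claim m (x i + 0 • y i).val (by omega) 0 (by omega) i rfl

/-- Counting: the digits `[0, m)`. -/
lemma pow_le {Q m k N : ℕ} (hQ : 1 ≤ Q) (hk : 2 * Q + 1 ≤ k) (hkp : k ≤ p)
    (hm : m + p / (Q + 1) ≤ p) : m ^ N ≤ (N + 1) ^ p * r k p N := by
  classical
  have hmp : m ≤ p := le_trans (Nat.le_add_right _ _) hm
  set I : Finset (ZMod p) := univ.filter fun a => a.val < m with hI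
  have hIcard : I.card = m := by
    have h1 : I = (Finset.range m).image (fun a : ℕ => (a : ZMod p)) := by
      ext c
      simp only [hI, mem_filter, mem_univ, true_and, mem_image, mem_range]
      constructor
      · intro h
        exact ⟨c.val, h, ZMod.natCast_zmod_val c⟩
      · rintro ⟨a, ha, rfl⟩
        rwa [ZMod.val_natCast_of_lt (by omega)]
    rw [h1, card_image_of_injOn, card_range]
    intro a ha b hb hab
    rw [coe_range, Set.mem_Iio] at ha hb
    have h2 := (ZMod.natCast_eq_natCast_iff' _ _ _).1 hab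
    rwa [Nat.mod_eq_of_lt (by omega), Nat.mod_eq_of_lt (by omega)] at h2
  set P : Finset (Fin N → ZMod p) := Fintype.piFinset fun _ => I with hP
  have hcard : P.card = m ^ N := by
    rw [hP, Fintype.card_piFinset]
    simp [hIcard]
  let h : (Fin N → ZMod p) → ZMod p → Fin (N + 1) := fun x a =>
    ⟨(univ.filter fun i => x i = a).card, by
      have := card_le_univ (univ.filter fun i => x i = a)
      rw [Fintype.card_fin] at this
      omega⟩
  have hmaps : ∀ x ∈ P, h x ∈ (univ : Finset (ZMod p → Fin (N + 1))) := fun x _ => mem_univ _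
  rw [← hcard, card_eq_sum_card_fiberwise hmaps]
  have hle : ∀ s ∈ (univ : Finset (ZMod p → Fin (N + 1))),
      (P.filter fun x => h x = s).card ≤ r k p N := by
    intro s _
    apply card_le_r
    intro x y hxy
    have hmem : ∀ j < k, (x + j • y) ∈ P ∧ h (x + j • y) = s := fun j hj =>
      mem_filter.1 (hxy j hj)
    refine elimination hQ hk hkp hm x y ?_ ?_
    · intro j hj i
      have h1 := (hmem j hj).1
      rw [hP, Fintype.mem_piFinset] at h1
      have h2 := h1 i
      rw [hI, mem_filter] at h2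
      exact h2.2
    · intro a j hj
      have h1 : h (x + j • y) a = h (x + 0 • y) a := by
        rw [(hmem j hj).2, (hmem 0 (by omega)).2]
      have h2 := congrArg Fin.val h1
      simpa [h] using h2
  calc ∑ s : ZMod p → Fin (N + 1), (P.filter fun x => h x = s).card
      ≤ ∑ _s : ZMod p → Fin (N + 1), r k p N := sum_le_sum hle
    _ = (N + 1) ^ p * r k p N := by
        rw [sum_const, card_univ, smul_eq_mul, Fintype.card_fun, Fintype.card_fin, ZMod.card]

end

/-- **Theorem.** For all primes `p ≥ k ≥ 3`, `λ_{k,p} ≥ p - ⌊p / ⌈k/2⌉⌋`. -/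
theorem result (p k : ℕ) [Fact p.Prime] (hk : 3 ≤ k) (hkp : k ≤ p) :
    ((p - p / ((k + 1) / 2) : ℕ) : ℝ) ≤ lam k p := by
  have hQ : 1 ≤ (k + 1) / 2 - 1 := by omega
  have hQ1 : (k + 1) / 2 - 1 + 1 = (k + 1) / 2 := by omega
  have hdiv : p / ((k + 1) / 2) ≤ p := Nat.div_le_self _ _
  refine le_of_pow_le (c := p) (lam_nonneg k) ?_
  intro N hN
  have h1 := pow_le (p := p) (k := k) (N := N) (Q := (k + 1) / 2 - 1)
    (m := p - p / ((k + 1) / 2)) hQ (by omega) hkp (by rw [hQ1]; omega)
  have h2 : (((p - p / ((k + 1) / 2) : ℕ) : ℝ)) ^ N ≤ ((N : ℝ) + 1) ^ p * (r k p N : ℝ) := by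
    exact_mod_cast h1
  exact h2.trans (mul_le_mul_of_nonneg_left (r_le_lam_pow k hN) (by positivity))

end Pool.Agent.Results.MP_b30443_co.IntervalTypes
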